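import Pool.Agent.Helper12_AWB.B307

/-!
Alperin's weight conjecture in alternating-sum form for blocks with abelian defect groups on which
the inertial group acts commutatively modulo a tame layer.
-/

open scoped BigOperators

noncomputable section

namespace Pool.Agent.Results.MP_6a3f1a_al.AbelianDefect

open Pool.Agent.Helper51_AWC Pool.Agent.PP

/-- `T` acts freely modulo its kernel on a part of `W`: `W = 1`, or `T` normalises a subgroup
`U ≠ 1` of `W` such that every element of `T` which commutes with some `u ≠ 1` in `U` centralises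
`W`. -/
def FreeOn {H : Type} [Group H] (T : Set H) (W : Subgroup H) : Prop :=
  W = ⊥ ∨ ∃ U : Subgroup H, U ≠ ⊥ ∧ U ≤ W ∧ (∀ t ∈ T, ∀ u ∈ U, t * u * t⁻¹ ∈ U) ∧
    ∀ t ∈ T, ∀ u ∈ U, u ≠ 1 → t * u = u * t → ∀ w ∈ W, t * w = w * t

/-- `W` is generated by two elements, or `ℓ ≥ 5` and the elements of `T` induce at most `ℓ / 3`
different maps `w ↦ t w t⁻¹` on `W`. -/
def Small (ℓ : ℕ) {H : Type} [Group H] (T : Set H) (W : Subgroup H) : Prop :=
  (∃ x y : H, W = Subgroup.closure {x, y}) ∨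
    (5 ≤ ℓ ∧ 3 * {f : W → H | ∃ t ∈ T, ∀ w : W, f w = t * w * t⁻¹}.ncard ≤ ℓ)

/-- `W` is small, `D` is the direct product of `W` and of cyclic subgroups `Y 0, ..., Y (s - 1)`
normalised by `T`, and every element of `T` which centralises some `Y i ≠ 1` and commutes with some
`u ≠ 1` in `W` centralises `W`. -/
def SmallFactor (ℓ : ℕ) {H : Type} [Group H] (T : Set H) (D W : Subgroup H) : Prop :=
  Small ℓ T W ∧
    ∃ (s : ℕ) (Y : Fin s → Subgroup H), (⨆ i, Y i) ⊔ W = D ∧ (⨆ i, Y i) ⊓ W = ⊥ ∧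
      (∀ i, Y i ⊓ (⨆ j, ⨆ (_ : j < i), Y j) = ⊥) ∧
      (∀ i, ∃ y ∈ Y i, ∀ x ∈ Y i, ∃ k : ℤ, x = y ^ k) ∧
      (∀ i, ∀ t ∈ T, ∀ y ∈ Y i, t * y * t⁻¹ ∈ Y i) ∧
      ∀ i, Y i ≠ ⊥ → ∀ t ∈ T, (∀ y ∈ Y i, t * y = y * t) → ∀ u ∈ W, u ≠ 1 → t * u = u * t →
        ∀ w ∈ W, t * w = w * t

/-- `D` is the direct product of `C` and `F`, `T` centralises `C` and normalises `F` and the subgroup
`W` of `F`, the commutators of elements of `T` centralise `F / W`, and `W` is of one of the two kinds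
above. -/
def Layer (ℓ : ℕ) {H : Type} [Group H] (T : Set H) (D C F W : Subgroup H) : Prop :=
  C ⊓ F = ⊥ ∧ C ⊔ F = D ∧ (∀ t ∈ T, ∀ c ∈ C, t * c = c * t) ∧
    (∀ t ∈ T, ∀ x ∈ F, t * x * t⁻¹ ∈ F) ∧ W ≤ F ∧ (∀ t ∈ T, ∀ w ∈ W, t * w * t⁻¹ ∈ W) ∧
    (∀ s ∈ T, ∀ t ∈ T, ∀ x ∈ F,
      s * t * s⁻¹ * t⁻¹ * x * (s * t * s⁻¹ * t⁻¹)⁻¹ * x⁻¹ ∈ W) ∧
    (FreeOn T W ∨ SmallFactor ℓ T F W)

/-- Let `G` be a finite group with `O_ℓ(G) ≤ Z(G)` and `χ ∈ Irr(G)`.  Let `p : G → H` be surjective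
with kernel in `O_ℓ(G)` (for example `H = G`, or `H = G / O_ℓ(G)`), and let `ψ ∈ Irr(H)` be such that
`ψ ∘ p` has the central character of `χ` modulo `M`, that is `ψ ∘ p` lies in the block of `χ`.  Let
`D` be a defect group of the block of `ψ` (`IsDef`), abelian and different from `p(O_ℓ(G))`, let
`θ ∈ Irr(C(D))` be a character whose block induces the block of `ψ` (a root), and let `T` be the
stabiliser of the block of `θ` in the normaliser of `D` (`Iner`).  If there are subgroups `C`, `F`,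
`W` with `Layer ℓ T D C F W` then the alternating sum of the block of `χ` is zero.

The condition holds with `C = W = 1`, `F = D` if the inertial quotient `T / C(D)` is abelian.  Let
`C` be the group of the elements of `D` centralised by `T` and `F = [D, T]`.  The condition holds with
`W = U = F` if the inertial quotient acts freely on `[D, T]`, and with `W = F`, `s = 0` if `[D, T]` is
generated by two elements or if the order of the inertial quotient is at most `ℓ / 3`, `ℓ ≥ 5`. -/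
theorem result :
    ∀ (ℓ : ℕ), ℓ.Prime → ∀ (M : Ideal (integralClosure ℤ ℂ)) [M.IsMaximal],
      (ℓ : integralClosure ℤ ℂ) ∈ M → ∀ (G : Type) [Group G] [Finite G],
      opCore ℓ G ≤ Subgroup.center G → ∀ χ ∈ Irr G,
      ∀ (H : Type) [Group H] (p : G →* H), Function.Surjective p → p.ker ≤ opCore ℓ G →
      ∀ ψ ∈ Irr H, (∀ g : G, Cong M (omega (MonoidHom.id G) (fun x => ψ (p x)) g)
        (omega (MonoidHom.id G) χ g)) →
      ∀ D : Subgroup H, ML.IsDef ℓ M ψ D → D ≠ (opCore ℓ G).map p →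
      (∀ x ∈ D, ∀ y ∈ D, x * y = y * x) →
      ∀ θ ∈ IrrBlock M (Subgroup.centralizer (D : Set H)).subtype ψ,
      (∃ C F W : Subgroup H, Layer ℓ (T3.Iner M D θ) D C F W) → altSum ℓ M χ = 0 := by
  intro ℓ hℓ M _ hM G _ _ hc χ hχ H _ p hp hk ψ hψ hb D hD hne hab θ hθ h
  have : Fact ℓ.Prime := ⟨hℓ⟩
  obtain ⟨C, F, W, h1, h2, h3, h4, wd, sw, cm, hW⟩ := h
  refine Pool.Agent.HFC.H66.fin_ ℓ M hM G hc χ hχ H p hp hk ψ hψ hb D hD hne hab θ hθ C F h1 h2
    h3 h4 ?_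
  rcases hW with (hb | ⟨U, nt, uw, su, fr⟩) | ⟨gn, s, Y, jn, du, dy, cy, sy, fr⟩
  · refine Or.inl ⟨W, ⊥, wd, sw, cm, bot_le, fun t _ u hu => ?_, fun _ => hb,
      fun t _ u hu hu1 => absurd (Subgroup.mem_bot.1 hu) hu1⟩
    rw [Subgroup.mem_bot.1 hu, mul_one, mul_inv_cancel]
    exact Subgroup.one_mem _
  · refine Or.inl ⟨W, U, wd, sw, cm, uw, su, fun h0 => absurd h0 nt, fun t ht u hu hu1 htu => ?_⟩
    rw [Subgroup.mem_centralizer_iff]
    exact fun w hw => (fr t ht u hu hu1 htu w hw).symm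
  · refine Or.inr ⟨s, Y, W, jn, dy, du, cy, gn, sy, sw, fun i hi t ht hy u hu hu1 htu => ?_⟩
    rw [Subgroup.mem_centralizer_iff]
    exact fun x hx => (fr i hi t ht hy u hu hu1 htu x hx).symm

end Pool.Agent.Results.MP_6a3f1a_al.AbelianDefect
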