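import Pool.Agent.Helper12_AWB.B295

/-!
Alperin's weight conjecture in alternating-sum form for the blocks whose defect group has a central
element of large order.
-/

open scoped BigOperators

noncomputable section

namespace Pool.Agent.Results.MP_6a3f1a_al.LargeCentre

open Pool.Agent.Helper51_AWC Pool.Agent.PP.ML

/-- Let `G` be a finite group with `O := O_ℓ(G) ≤ Z(G)`, `χ ∈ Irr(G)` and `D` a defect group of the
block of `χ` (`IsDef`).  Let `z ∈ D` be central in `D` modulo `O`, of order `q > 1` modulo `O`.  The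
alternating sum of the block of `χ` is zero in each of the following two cases.

* `D` has a subgroup `B` which is abelian modulo `O`, and `q ≥ ℓ m ^ 3 |D : B|` (`q ≥ 4 m ^ 3 |D : B|` if
  `ℓ = 2`), where `|D : O| = m q`, that is `m` is the index of `⟨z⟩ O` in `D`.
* `D` has a subgroup `Z ≥ O` which is central in `D` modulo `O`, `|Z : Z ^ ℓ O| ≤ ℓ ^ r`,
  `|D : Z| ≤ ℓ ^ p` and `q ≥ ℓ ^ f`, `f = 3 p + 2 r p + 2 r (p + r p + r r + ε)`, where `ε = 1` if `ℓ`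
  is odd, `ε = 2` if `ℓ = 2`. -/
theorem result :
    ∀ (ℓ : ℕ) [Fact ℓ.Prime] (M : Ideal (integralClosure ℤ ℂ)) [M.IsMaximal],
      (ℓ : integralClosure ℤ ℂ) ∈ M → ∀ (G : Type) [Group G] [Finite G],
      opCore ℓ G ≤ Subgroup.center G → ∀ χ ∈ Irr G, ∀ D : Subgroup G, IsDef ℓ M χ D →
      ∀ z ∈ D, (∀ d ∈ D, z * d * z⁻¹ * d⁻¹ ∈ opCore ℓ G) →
      ∀ q : ℕ, 1 < q → (∀ n : ℕ, z ^ n ∈ opCore ℓ G ↔ q ∣ n) →
      ((∃ m : ℕ, ∃ B : Subgroup G, B ≤ D ∧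
          (∀ x ∈ B, ∀ y ∈ B, x * y * x⁻¹ * y⁻¹ ∈ opCore ℓ G) ∧
          Nat.card D = m * q * Nat.card (opCore ℓ G) ∧
          (if ℓ = 2 then 4 else ℓ) * m ^ 3 * B.relIndex D ≤ q) ∨
        (∃ r p : ℕ, ∃ Z : Subgroup G, Z ≤ D ∧ opCore ℓ G ≤ Z ∧
          (∀ x ∈ Z, ∀ d ∈ D, x * d * x⁻¹ * d⁻¹ ∈ opCore ℓ G) ∧
          Nat.card Z ≤ ℓ ^ r *
            Nat.card (Subgroup.closure ((fun x : G => x ^ ℓ) '' (Z : Set G)) ⊔ opCore ℓ G :
              Subgroup G) ∧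
          Nat.card D ≤ ℓ ^ p * Nat.card Z ∧
          ℓ ^ (3 * p + 2 * r * p + 2 * r * (p + r * p + r * r + (if ℓ = 2 then 2 else 1))) ≤ q)) →
      altSum ℓ M χ = 0 := by
  intro ℓ _ M _ hM G _ _ hc χ hχ D hD z hz hzc q hq1 hq h
  have hp : ℓ.Prime := Fact.out
  rcases h with ⟨m, B, hB, hBc, hcard, hle⟩ | ⟨r, p, Z, hZ, hOZ, hZc, hZr, hZp, hle⟩
  · exact Pool.Agent.PP.T5.H43.fin5 ℓ M hM G hc χ hχ D hD z hz hzc B hB hBc q m hq hcard hle
  · obtain ⟨k, hk⟩ : ∃ k : ℕ, z ^ ℓ ^ k ∈ opCore ℓ G := by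
      have h1 : IsPGroup ℓ D := hD.1
      obtain ⟨k, hk⟩ := h1 ⟨z, hz⟩
      refine ⟨k, ?_⟩
      have h2 := congrArg Subtype.val hk
      simp only [Subgroup.coe_pow, Subgroup.coe_one] at h2
      rw [h2]
      exact one_mem _
    obtain ⟨a, ha, rfl⟩ : ∃ a ≤ k, q = ℓ ^ a := (Nat.dvd_prime_pow hp).1 ((hq _).1 hk)
    have ha0 : 0 < a := by
      by_contra h0
      have h1 : a = 0 := by omega
      rw [h1, pow_zero] at hq1
      exact lt_irrefl _ hq1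
    exact Pool.Agent.PP.TP.H43.fin11 ℓ M hM r p a ha0 ((Nat.pow_le_pow_iff_right hp.one_lt).1 hle)
      G hc χ hχ D hD Z hZ hOZ hZc hZr hZp ⟨z, hz, hzc, hq⟩

end Pool.Agent.Results.MP_6a3f1a_al.LargeCentre
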