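import Pool.Agent.Helper12_AWB.B298

/-!
Alperin's weight conjecture in alternating-sum form for the blocks that cover a block of a normal
subgroup whose defect groups are abelian of rank at most two modulo the largest normal
`ℓ`-subgroup.
-/

open scoped BigOperators

noncomputable section

namespace Pool.Agent.Results.MP_6a3f1a_al.RankTwo

open Pool.Agent.Helper51_AWC Pool.Agent.PP

/-- Let `N` be a normal subgroup of the finite group `G` with `O_ℓ(G) ≤ Z(G)`, let `χ ∈ Irr(G)` lie
over `ψ ∈ Irr(N)`, and let the defect groups of the block of `ψ` be larger than `O_ℓ(N)`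
(`LargeDefect`), and abelian and generated by two elements modulo `O_ℓ(N)`: the central character of
`ψ` is not in `M` at the class of some `x ∈ N`, and a Sylow `ℓ`-subgroup `P` of the centraliser of
`x` has its commutators in `O_ℓ(N)` and is contained in the group generated by `O_ℓ(N)` and two
elements of `P`. Then the alternating sum of the block of `χ` is zero. -/
theorem result :
    ∀ (ℓ : ℕ), ℓ.Prime → ∀ (M : Ideal (integralClosure ℤ ℂ)) [M.IsMaximal],
      (ℓ : integralClosure ℤ ℂ) ∈ M → ∀ (G : Type) [Group G] [Finite G],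
      opCore ℓ G ≤ Subgroup.center G → ∀ N : Subgroup G, N.Normal →
      ∀ χ ∈ Irr G, ∀ ψ ∈ Irr N, (∑ᶠ n : N, χ n * starRingEnd ℂ (ψ n)) ≠ 0 →
        LargeDefect ℓ M ψ →
        (∃ (x : N) (P : Subgroup N), ¬ Cong M (omega (MonoidHom.id N) ψ x) 0 ∧
          P ≤ Subgroup.centralizer ({x} : Set N) ∧ IsPGroup ℓ P ∧
          ¬ ℓ ∣ P.relIndex (Subgroup.centralizer ({x} : Set N)) ∧
          (∀ u ∈ P, ∀ v ∈ P, u * v * u⁻¹ * v⁻¹ ∈ opCore ℓ N) ∧
          ∃ a b : N, P ≤ Subgroup.closure ({a, b} : Set N) ⊔ opCore ℓ N ∧ a ∈ P ∧ b ∈ P) →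
        altSum ℓ M χ = 0 := by
  exact TW.fin2 (fun ℓ => TW.tt_ ℓ) SE.s2f_

end Pool.Agent.Results.MP_6a3f1a_al.RankTwo
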