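import Pool.Agent.Helper12_AWB.B284
import Pool.Agent.Helper12_AWB.B296
import Pool.Agent.Helper12_AWB.B298
import Pool.Agent.Helper66_AWS.S089
import Pool.Agent.Helper66_AWS.S154
import Pool.Agent.Helper66_AWS.S157
import Pool.Agent.Results.MP_6a3f1a_al.AbelianDefect

/-!
Alperin's weight conjecture in alternating-sum form: reduction, without inductive conditions and
relative to a normal subgroup `N`, to blocks outside the class of `AbelianDefect` of groups that are
almost simple modulo their centre, and its unconditional part.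
-/

open scoped BigOperators

noncomputable section

namespace Pool.Agent.Results.MP_6a3f1a_al.SimpleReduction

open Pool.Agent.Helper51_AWC Pool.Agent.PP Pool.Agent.PP.X2 Pool.Agent.PP.X4
open Pool.Agent.Results.MP_6a3f1a_al.AbelianDefect (Layer)

/-- The Sylow `ℓ`-subgroups of `S` are abelian and generated by two elements. -/
def RkSyl (ℓ : ℕ) (S : Type) [Group S] : Prop := ∃ P : Sylow ℓ S,
  (∀ x y : P, x * y = y * x) ∧ ∃ x y : P, Subgroup.closure ({x, y} : Set P) = ⊤

/-- The reflection in the hyperplane orthogonal to `a`. -/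
def rf {m : ℕ} (a v : EuclideanSpace ℝ (Fin m)) : EuclideanSpace ℝ (Fin m) :=
  v - (2 * inner ℝ a v / inner ℝ a a) • a

/-- `v` is a linear combination of the vectors `a i` with nonnegative coefficients. -/
def Nn {m r : ℕ} (a : Fin r → EuclideanSpace ℝ (Fin m)) (v : EuclideanSpace ℝ (Fin m)) : Prop :=
  ∃ k : Fin r → ℝ, (∀ i, 0 ≤ k i) ∧ v = ∑ i, k i • a i

/-- A root group datum of characteristic `ℓ` of the group `G`: a finite set `Φ` of roots with simple
roots `a i` in a Euclidean space, root groups `X b` (`b ∈ Φ`) which are `ℓ`-groups, a group `T` of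
order prime to `ℓ` normalising them, and elements `n i` which induce on the root groups the
reflections in the simple roots. -/
structure RGD (ℓ : ℕ) (G : Type) [Group G] where
  /-- the dimension of the Euclidean space -/
  m : ℕ
  /-- the number of simple roots -/
  r : ℕ
  /-- the simple roots -/
  a : Fin r → EuclideanSpace ℝ (Fin m)
  /-- the roots -/
  Φ : Set (EuclideanSpace ℝ (Fin m))
  /-- the root groups -/
  X : EuclideanSpace ℝ (Fin m) → Subgroup G
  /-- the torus -/
  T : Subgroup G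
  /-- representatives of the simple reflections -/
  n : Fin r → G
  /-- there are finitely many roots -/
  fin : Φ.Finite
  /-- the simple roots are linearly independent -/
  base : LinearIndependent ℝ a
  /-- the simple roots are roots -/
  mem : ∀ i, a i ∈ Φ
  /-- the roots are nonzero -/
  ne0 : ∀ b ∈ Φ, b ≠ 0
  /-- every root or its negative is a nonnegative combination of simple roots -/
  sgn : ∀ b ∈ Φ, Nn a b ∨ Nn a (-b)
  /-- the roots are permuted by the simple reflections -/
  refl : ∀ i, ∀ b ∈ Φ, rf (a i) b ∈ Φ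
  /-- a simple root is the shortest root on its ray -/
  short : ∀ i (c : ℝ), 0 < c → c • a i ∈ Φ → 1 ≤ c
  /-- the root groups are `ℓ`-groups -/
  pgrp : ∀ b ∈ Φ, IsPGroup ℓ (X b)
  /-- the root groups of the simple roots are not trivial -/
  nt : ∀ i, X (a i) ≠ ⊥
  /-- the root groups of a ray are nested -/
  nest : ∀ b ∈ Φ, ∀ c : ℝ, 1 ≤ c → c • b ∈ Φ → X (c • b) ≤ X b
  /-- the order of the torus is prime to `ℓ` -/
  cop : ¬ ℓ ∣ Nat.card T
  /-- the torus normalises the root groups -/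
  tX : ∀ t ∈ T, ∀ b ∈ Φ, ∀ x ∈ X b, t * x * t⁻¹ ∈ X b
  /-- `n i` induces the reflection in the simple root `a i` on the root groups -/
  nX : ∀ i, ∀ b ∈ Φ, ∀ x ∈ X b, n i * x * (n i)⁻¹ ∈ X (rf (a i) b)
  /-- `n i` normalises the torus -/
  nT : ∀ i, ∀ t ∈ T, n i * t * (n i)⁻¹ ∈ T
  /-- the square of `n i` is in the torus -/
  nn : ∀ i, n i * n i ∈ T
  /-- `n i` is in the group generated by the root groups of `a i` and its negative -/
  nmem : ∀ i, n i ∈ X (a i) ⊔ X (-a i)
  /-- the commutator relations -/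
  comm : ∀ b ∈ Φ, ∀ c ∈ Φ, (∀ s : ℝ, 0 < s → c ≠ -(s • b)) → ∀ x ∈ X b, ∀ y ∈ X c,
    x * y * x⁻¹ * y⁻¹ ∈ ⨆ d ∈ {d ∈ Φ | ∃ p q : ℝ, 1 ≤ p ∧ 1 ≤ q ∧ d = p • b + q • c}, X d
  /-- the groups of rank one -/
  cell : ∀ i, ∀ x ∈ X (a i), x ≠ 1 →
    ∃ y ∈ X (a i), ∃ z ∈ X (a i), ∃ t ∈ T, n i * x * (n i)⁻¹ = y * (n i * t) * z
  /-- the group generated by the positive root groups meets the group generated by the torus and the
  negative root groups trivially -/
  opp : (⨆ b ∈ {b ∈ Φ | Nn a b}, X b) ⊓ (T ⊔ ⨆ b ∈ {b ∈ Φ | Nn a (-b)}, X b) = ⊥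
  /-- `G` is generated by the torus and the root groups -/
  gen : T ⊔ ⨆ b ∈ Φ, X b = ⊤

/-- `S` has a root group datum of characteristic `ℓ`: it is of Lie type in characteristic `ℓ`. -/
def LieType (ℓ : ℕ) (S : Type) [Group S] : Prop := Nonempty (RGD ℓ S)

theorem lieType_of {ℓ : ℕ} {S : Type} [Group S] (h : LieType ℓ S) : X1.LieType ℓ S := by
  obtain ⟨R⟩ := h
  exact ⟨⟨R.m, R.r, R.a, R.Φ, R.X, R.T, R.n, R.fin, R.base, R.mem, R.ne0, R.sgn, R.refl, R.short,
    R.pgrp, R.nt, R.nest, R.cop, R.tX, R.nX, R.nT, R.nn, R.nmem, R.comm, R.cell, R.opp, R.gen⟩⟩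

/-- a Sylow `ℓ`-subgroup `V` of `C ≥ V` which is abelian and generated by two elements -/
theorem rkSyl_centralizer {ℓ : ℕ} [Fact ℓ.Prime] {D : Type} [Group D] [Finite D]
    {V C : Subgroup D} (hp : IsPGroup ℓ V) (hle : V ≤ C) (hi : ¬ ℓ ∣ V.relIndex C)
    (hab : ∀ x ∈ V, ∀ y ∈ V, x * y = y * x) (h2 : ∃ a b : D, V = Subgroup.closure {a, b}) :
    RkSyl ℓ C := by
  obtain ⟨a, b, hV2⟩ := h2
  have ha : a ∈ V := by rw [hV2]; exact Subgroup.subset_closure (by simp)
  have hb : b ∈ V := by rw [hV2]; exact Subgroup.subset_closure (by simp)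
  have hp' : IsPGroup ℓ (V.subgroupOf C) :=
    hp.comap_of_injective (Subgroup.subtype _) (Subgroup.subtype_injective _)
  refine ⟨hp'.toSylow hi, fun x y => ?_, ⟨⟨a, hle ha⟩, ha⟩, ⟨⟨b, hle hb⟩, hb⟩, ?_⟩
  · exact Subtype.ext (Subtype.ext (hab _ x.2 _ y.2))
  · let f : ↥(V.subgroupOf C) →* D := C.subtype.comp (V.subgroupOf C).subtype
    have hf : Function.Injective f :=
      (Subgroup.subtype_injective C).comp (Subgroup.subtype_injective (V.subgroupOf C))
    refine Subgroup.map_injective hf ?_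
    have e1 : (Subgroup.closure ({⟨⟨a, hle ha⟩, ha⟩, ⟨⟨b, hle hb⟩, hb⟩} :
        Set ↥(V.subgroupOf C))).map f = Subgroup.closure ({a, b} : Set D) := by
      rw [MonoidHom.map_closure, Set.image_pair]
      rfl
    have e2 : (⊤ : Subgroup ↥(V.subgroupOf C)).map f = V := by
      ext z
      constructor
      · rintro ⟨y, -, rfl⟩
        exact y.2
      · intro hz
        exact ⟨⟨⟨z, hle hz⟩, hz⟩, trivial, rfl⟩
    exact e1.trans (hV2.symm.trans e2.symm)

/-- Let `G` be a finite group with `O_ℓ(G) ≤ Z(G)`, `N` a normal subgroup, `χ ∈ Irr(G)` over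
`ψ ∈ Irr(N)` such that the block of `ψ` has defect groups larger than `O_ℓ(N)` (`LargeDefect`).  If
the alternating sum of the block of `χ` is not zero, then there are a finite group `D` with
`O_ℓ(D) = 1` and `Z(D) ≤ [D, D]` and a character `ϑ ∈ Irr(D)` faithful on `Z(D)` such that the
alternating sum of the block of `ϑ` is not zero, and

* `D / Z(D)` is involved in `G` and almost simple, its outer part is a nilpotent group of order prime
  to `ℓ` generated by two elements (`NearlySimpleF`);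
* its socle `S` is involved in `N`, its Sylow `ℓ`-subgroups are nonabelian or need three generators
  (`RkSyl`), it is not of Lie type in characteristic `ℓ` (in particular not `PSL_n(K)` for a finite
  field `K` of characteristic `ℓ`) and not isomorphic to `PSL_2(K)` for a finite field `K` (of
  characteristic two if `ℓ = 2`);
* if the defect groups `V` of the block of `ϑ` are abelian then they are not generated by two
  elements, and no root `θ` (a character of `C(V)` whose block induces the block of `ϑ`) with inertial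
  group `Iner M V θ` satisfies the condition `Layer` of `AbelianDefect` (which holds if the inertial
  quotient is abelian, or acts freely, or has order at most `ℓ / 3`, `ℓ ≥ 5`).

Unconditional part: if every nonabelian simple group involved in `N` has order prime to `ℓ`, is of
Lie type in characteristic `ℓ` or has abelian Sylow `ℓ`-subgroups generated by two elements, then the
alternating sum of the block of `χ` is zero, for every `G / N`. -/
theorem result :
    ∀ (ℓ : ℕ) [Fact ℓ.Prime] (M : Ideal (integralClosure ℤ ℂ)) [M.IsMaximal],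
      (ℓ : integralClosure ℤ ℂ) ∈ M → ∀ (G : Type) [Group G] [Finite G],
      opCore ℓ G ≤ Subgroup.center G → ∀ (N : Subgroup G) [N.Normal],
      ∀ χ ∈ Irr G, ∀ ψ ∈ Irr N, (∑ᶠ n : N, χ n * starRingEnd ℂ (ψ n)) ≠ 0 →
        LargeDefect ℓ M ψ → altSum ℓ M χ ≠ 0 →
        ∃ (S : Type) (_ : Group S) (_ : Finite S) (D : Type) (_ : Group D) (_ : Finite D),
          NonabSimple S ∧ Involves N S ∧ ¬ RkSyl ℓ S ∧ ¬ LieType ℓ S ∧
            (∀ (n : ℕ) (K : Type) [Field K] [Finite K], (ℓ : K) = 0 →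
              IsEmpty (S ≃* Matrix.ProjectiveSpecialLinearGroup (Fin n) K)) ∧
            (∀ (K : Type) [Field K] [Finite K], (ℓ = 2 → (2 : K) = 0) →
              IsEmpty (S ≃* Matrix.ProjectiveSpecialLinearGroup (Fin 2) K)) ∧
            opCore ℓ D = ⊥ ∧ Subgroup.center D ≤ commutator D ∧ NearlySimpleF ℓ D S ∧
            Involves G (D ⧸ Subgroup.center D) ∧
            ∃ ϑ ∈ Irr D, (∀ z ∈ Subgroup.center D, ϑ z = ϑ 1 → z = 1) ∧ altSum ℓ M ϑ ≠ 0 ∧
              ∀ V : Subgroup D, ML.IsDef ℓ M ϑ V → (∀ x ∈ V, ∀ y ∈ V, x * y = y * x) →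
                (¬ ∃ a b : D, V = Subgroup.closure {a, b}) ∧
                ∀ θ ∈ IrrBlock M (Subgroup.centralizer (V : Set D)).subtype ϑ,
                  ¬ ∃ C F W : Subgroup D, Layer ℓ (T3.Iner M V θ) V C F W := by
  intro ℓ _ M _ hM G _ _ hc N _ χ hχ ψ hψ hχψ hL h0
  have hq : QProd (AdmR ℓ (fun _ _ _ => True)) (⊥ : Subgroup G) :=
    ⟨Empty, inferInstance, fun i => i.elim, fun i => i.elim, by simp, fun i => i.elim⟩
  obtain ⟨S, gS, fS, D, gD, fD, h1, -, h3, h4, h5, h6, h7, h8, h9, h10, h11, ϑ, hϑ, hz, hx, ha⟩ :=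
    finR (TW.fin2 (fun ℓ => TW.tt_ ℓ) SE.s2f_) A.finC0 X1.nsx_ X1.quo_ X1.sln_ ℓ
      (clfR A.psq_ H71.psb ℓ) M hM (fun _ _ _ => True) G hc N ⊥ bot_le hq
      (fun S _ _ _ _ => Or.inr (Or.inr trivial))
      (fun S _ _ _ _ _ _ _ Q _ _ _ => Or.inr (Or.inr fun T _ _ _ _ => Or.inr (Or.inr trivial)))
      χ hχ ψ hψ hχψ hL h0
  refine ⟨S, gS, fS, D, gD, fD, h1, h3, h4, fun h => h5 (lieType_of h), h6, h7, h8, h9, h10, h11, ϑ, hϑ, hz, ha,
    fun V hV hab => ?_⟩
  have h2g : ¬ ∃ a b : D, V = Subgroup.closure {a, b} := by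
    rintro ⟨a, b, hV2⟩
    obtain ⟨hp, ⟨x, hx0, hle, hx2⟩, -⟩ := hV
    exact hx x hx0 (rkSyl_centralizer hp hle hx2 hab ⟨a, b, hV2⟩)
  have hne : V ≠ ⊥ := fun h =>
    h2g ⟨1, 1, by rw [h, Set.pair_eq_singleton, Subgroup.closure_singleton_one]⟩
  refine ⟨h2g, fun θ hθ hlay => ha ?_⟩
  refine AbelianDefect.result ℓ Fact.out M hM D (by rw [h8]; exact bot_le) ϑ hϑ D
    (MonoidHom.id D) Function.surjective_id ?_ ϑ hϑ ?_ V hV ?_ hab θ hθ hlay
  · intro x hx
    rw [MonoidHom.mem_ker] at hx
    rw [show x = 1 from hx]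
    exact Subgroup.one_mem _
  · intro g
    exact Pool.Agent.Helper51_AWC.Cong.refl _
  · rw [h8, Subgroup.map_bot]
    exact hne

end Pool.Agent.Results.MP_6a3f1a_al.SimpleReduction
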